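import Pool.Agent.Helper16.EXP.Dual
import Pool.Agent.Helper77.AU.Glue
import Pool.Agent.Helper36.EX.Stmt

/-!
# EX+: assembly
-/

set_option autoImplicit false

namespace Pool.Agent.EXP

open NumberField IntermediateField Pool.Agent.Helper64.Vojta Pool.Agent.EX MvPolynomial Filter
open Pool.Agent.Helper77.AU

universe u

theorem det3_crs {R : Type*} [CommRing R] (a b c d : Fin 3 → R) :
    det3 (crs (crs a b) (crs c d)) d a = det3 a b d * det3 c d a := by
  simp only [det3, crs, Matrix.cons_val]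
  ring

theorem dot_crs_crs_map {K Ω : Type u} [Field K] [Field Ω] [Algebra K Ω] (a b c d : Fin 3 → K) (j : Fin 3) :
    crs (crs (fun j => algebraMap K Ω (a j)) fun j => algebraMap K Ω (b j))
      (crs (fun j => algebraMap K Ω (c j)) fun j => algebraMap K Ω (d j)) j =
      algebraMap K Ω (crs (crs a b) (crs c d) j) := by
  fin_cases j <;> simp [crs, Matrix.cons_val]

/-- the algebra, `q ≥ 6` lines -/
theorem algebra {k K Ω : Type u} [Field k] [CharZero k] [Field K] [CharZero K] [Field Ω] [Algebra k K] [Algebra K Ω]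
    (D : SL.Dat K Ω) {q : ℕ} (ℓ : Fin q → Fin 3 → k) (hℓ : GenPos ℓ) (hc : ¬ OnConic ℓ)
    (x x' : Fin 3 → Ω) (hx : x ≠ 0) (hx' : x' ≠ 0)
    (hu : ∀ i, D.U (SL.lin (fun j => algebraMap k K (ℓ i j)) x * SL.lin (fun j => algebraMap k K (ℓ i j)) x'))
    (hrk : (1 : ℕ∞) ≤ GS.rk K (GS.Rat (N := 2) x)) :
    ∃ m : Fin 3 → k, Four ℓ m ∧ SL.lin (fun j => algebraMap k K (m j)) x = 0 := by
  classical
  obtain ⟨f, hf, hnc⟩ := exists_six (K := K) ℓ hc
  set v : Fin 6 → Fin 3 → K := fun i j => algebraMap k K (ℓ (f i) j) with hv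
  have hgpk : ∀ a b c : Fin q, a ≠ b → a ≠ c → b ≠ c → det3 (ℓ a) (ℓ b) (ℓ c) ≠ 0 := by
    intro a b c hab hac hbc
    rw [← det_of]
    have h1 := hℓ ![a, b, c] (by
      intro i j hij
      fin_cases i <;> fin_cases j <;> simp_all)
    have h2 : (Matrix.of ![ℓ a, ℓ b, ℓ c]) = Matrix.of fun i j => ℓ (![a, b, c] i) j := by
      ext i j
      fin_cases i <;> rfl
    rw [h2]
    exact h1
  have hmap3 : ∀ a b c : Fin 3 → k, det3 (fun j => algebraMap k K (a j)) (fun j => algebraMap k K (b j))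
      (fun j => algebraMap k K (c j)) = algebraMap k K (det3 a b c) := by
    intro a b c
    simp only [det3, map_add, map_sub, map_mul]
  have hgp : GP6 v := by
    intro a b c hab hac hbc
    rw [hv]
    show det3 (fun j => algebraMap k K (ℓ (f a) j)) (fun j => algebraMap k K (ℓ (f b) j))
      (fun j => algebraMap k K (ℓ (f c) j)) ≠ 0
    rw [hmap3, Ne, map_eq_zero]
    exact hgpk _ _ _ (hf.ne hab) (hf.ne hac) (hf.ne hbc)
  have hrk0 : GS.rk K (GS.Rat (N := 2) x) ≠ 0 := by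
    intro h0
    rw [h0] at hrk
    exact absurd hrk (by simp)
  have hnoc : ∃ i j, ¬ SL.Cst K ((SL.lin (v i) x * SL.lin (v i) x') / (SL.lin (v j) x * SL.lin (v j) x')) := by
    by_contra hcon
    push Not at hcon
    exact hrk0 (rk_of_all_cst v hnc x x' hx' (fun i => (hu (f i)).1) hcon)
  obtain ⟨a, b, c, d, hab, hac, had, hbc, hbd, hcd, h1, h2⟩ := Pool.Agent.EX.Stmt.alg D v hgp hnc x x' hx hx'
    (fun i => by
      rw [← lin_eq_dot, ← lin_eq_dot]
      exact hu (f i))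
    (by
      obtain ⟨i, j, hij⟩ := hnoc
      refine ⟨i, j, ?_⟩
      rw [lin_eq_dot, lin_eq_dot, lin_eq_dot, lin_eq_dot] at hij
      exact hij)
  set m : Fin 3 → k := crs (crs (ℓ (f a)) (ℓ (f b))) (crs (ℓ (f c)) (ℓ (f d))) with hm
  have hmv : crs (crs (v a) (v b)) (crs (v c) (v d)) = fun j => algebraMap k K (m j) := by
    funext j
    exact dot_crs_crs_map _ _ _ _ j
  rw [hmv, ← lin_eq_dot] at h1 h2
  have hm0 : m ≠ 0 := by
    intro h0
    have h3 := det3_crs (ℓ (f a)) (ℓ (f b)) (ℓ (f c)) (ℓ (f d))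
    rw [← hm, h0] at h3
    have h4 : det3 (0 : Fin 3 → k) (ℓ (f d)) (ℓ (f a)) = 0 := by simp [det3]
    rw [h4] at h3
    exact mul_ne_zero (hgpk _ _ _ (hf.ne hab) (hf.ne had) (hf.ne hbd)) (hgpk _ _ _ (hf.ne hcd) (hf.ne hac.symm)
      (hf.ne had.symm)) h3.symm
  by_cases h4 : Four ℓ m
  · exact ⟨m, h4, h1⟩
  exfalso
  have hne : ∀ i, ∀ e : k, ℓ i ≠ e • m := by
    intro i e he
    apply (hu i).1
    have h5 : SL.lin (fun j => algebraMap k K (ℓ i j)) x = algebraMap K Ω (algebraMap k K e) *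
        SL.lin (fun j => algebraMap k K (m j)) x := by
      unfold SL.lin
      rw [Finset.mul_sum]
      refine Finset.sum_congr rfl fun j _ => ?_
      show algebraMap K Ω (algebraMap k K (ℓ i j)) * x j = algebraMap K Ω (algebraMap k K e) *
        (algebraMap K Ω (algebraMap k K (m j)) * x j)
      rw [he, Pi.smul_apply, smul_eq_mul, map_mul, map_mul, mul_assoc]
    rw [h5, h1, mul_zero, zero_mul]
  obtain ⟨g, hg⟩ := five_of_not_four ℓ m hm0 hne h4
  refine hrk0 (line5 D (fun j => algebraMap k K (m j)) (fun i j => algebraMap k K (ℓ (g i) j)) (fun i j hij => ?_) x x'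
    hx' h1 h2 fun i => hu (g i))
  rw [det_of, hmap3, Ne, map_eq_zero, ← det_of]
  exact hg i j hij

/-- one degree -/
theorem main_deg {k : Type u} [Field k] [NumberField k] (S : Finset (Pl k)) {q : ℕ} (hq : 0 < q)
    (ℓ : Fin q → Fin 3 → k) (hℓ : GenPos ℓ) (hc : ¬ OnConic ℓ) (r : ℕ) (hr : r = 1 ∨ r = 2) :
    ∃ δ : ℝ, 0 < δ ∧ ∃ C : ℝ, ∀ y : Fin 2 → AlgebraicClosure k, Pool.Agent.VZ.dg y = r →
      (∀ i, ∑ j, algebraMap k (Pool.Agent.VZ.fld y) (ℓ i j) * Pool.Agent.VZ.crd y j ≠ 0) →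
      (∀ m, Four ℓ m → ∑ j, algebraMap k (Pool.Agent.VZ.fld y) (m j) * Pool.Agent.VZ.crd y j ≠ 0) →
      Pool.Agent.VZ.lam ℓ S y ≤ (q - δ) * Pool.Agent.VZ.hgt y + C := by
  classical
  by_contra hcon
  push Not at hcon
  obtain ⟨U, t, ht, D, y, X, s0, c, hyP, hyd, hc0, hX0, hXf, hXU, hrk⟩ :=
    glue S r ℓ ⟨0, hq⟩ (fun y => ∀ m, Four ℓ m → ∑ j, algebraMap k (Pool.Agent.VZ.fld y) (m j) * Pool.Agent.VZ.crd y j ≠ 0)
      (by
        intro δ C hδ
        obtain ⟨y, h1, h2, h3, h4⟩ := hcon δ hδ C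
        exact ⟨y, h3, h1, h2, h4⟩)
  -- the two points
  have hlin : ∀ i (z : Fin 3 → SL.Om k U), GS.lin (fun j => algebraMap k (slowK (k := k) U t ht) (ℓ i j)) z =
      SL.lin (fun j => algebraMap k (slowK (k := k) U t ht) (ℓ i j)) z := fun i z => rfl
  have hUmul : ∀ a b, D.U a → D.U b → D.U (a * b) := by
    intro a b ha hb
    refine ⟨mul_ne_zero ha.1 hb.1, D.R.mul_mem ha.2.1 hb.2.1, ?_⟩
    rw [mul_inv]
    exact D.R.mul_mem ha.2.2 hb.2.2
  have hnz : ∀ σ, X σ ≠ 0 := by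
    intro σ h0
    have h1 := (hXU ⟨0, hq⟩).1
    apply h1
    unfold GS.uu
    refine Finset.prod_eq_zero (Finset.mem_univ σ) ?_
    rw [h0]
    unfold GS.lin
    exact Finset.sum_eq_zero fun j _ => by rw [Pi.zero_apply, mul_zero]
  obtain ⟨x', hx', hu⟩ : ∃ x' : Fin 3 → SL.Om k U, x' ≠ 0 ∧ ∀ i, D.U
      (SL.lin (fun j => algebraMap k (slowK (k := k) U t ht) (ℓ i j)) (X s0) *
        SL.lin (fun j => algebraMap k (slowK (k := k) U t ht) (ℓ i j)) x') := by
    rcases hr with rfl | rfl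
    · refine ⟨X s0, hnz s0, fun i => ?_⟩
      have h1 := hXU i
      unfold GS.uu at h1
      rw [Fin.prod_univ_one] at h1
      have h2 : s0 = 0 := Subsingleton.elim _ _
      rw [h2]
      exact hUmul _ _ h1 h1
    · refine ⟨X (1 - s0), hnz _, fun i => ?_⟩
      have h1 := hXU i
      unfold GS.uu at h1
      rw [Fin.prod_univ_two] at h1
      fin_cases s0
      · exact h1
      · rw [mul_comm] at h1
        exact h1
  obtain ⟨m, hm4, hm⟩ := algebra D ℓ hℓ hc (X s0) x' (hnz s0) hx' hu hrk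
  -- the line contains almost all points of the sequence
  have h1 : SL.gm U (fun a => ∑ j, algebraMap k (AlgebraicClosure k) (m j) *
      (Fin.cons 1 (y a) : Fin 3 → AlgebraicClosure k) j) = 0 := by
    have h2 : SL.lin (fun j => algebraMap k (slowK (k := k) U t ht) (m j)) (X s0) =
        c * SL.gm U (fun a => ∑ j, algebraMap k (AlgebraicClosure k) (m j) *
          (Fin.cons 1 (y a) : Fin 3 → AlgebraicClosure k) j) := by
      have h3 : (fun a => ∑ j, algebraMap k (AlgebraicClosure k) (m j) *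
          (Fin.cons 1 (y a) : Fin 3 → AlgebraicClosure k) j) =
          ∑ j, (fun _ : ℕ => algebraMap k (AlgebraicClosure k) (m j)) *
            fun a => (Fin.cons 1 (y a) : Fin 3 → AlgebraicClosure k) j := by
        funext a
        rw [Finset.sum_apply]
        rfl
      rw [h3, map_sum, Finset.mul_sum]
      unfold SL.lin
      refine Finset.sum_congr rfl fun j _ => ?_
      rw [hX0 j, map_mul]
      have h4 : algebraMap (slowK (k := k) U t ht) (SL.Om k U) (algebraMap k (slowK (k := k) U t ht) (m j)) =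
          SL.gm U (fun _ : ℕ => algebraMap k (AlgebraicClosure k) (m j)) := rfl
      rw [h4]
      ring
    rw [h2] at hm
    exact (mul_eq_zero.1 hm).resolve_left hc0
  rw [SL.gm_zero] at h1
  obtain ⟨a, ha⟩ := h1.exists
  apply hyP a m hm4
  apply (algebraMap (Pool.Agent.VZ.fld (y a)) (AlgebraicClosure k)).injective
  rw [map_zero, ← ha, map_sum]
  refine Finset.sum_congr rfl fun j _ => ?_
  rw [map_mul]
  congr 1
  refine Fin.cases ?_ (fun i => ?_) j
  · exact map_one _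
  · rfl

theorem main {k : Type u} [Field k] [NumberField k] (S : Finset (Pl k)) {q : ℕ} (hq : 0 < q)
    (ℓ : Fin q → Fin 3 → k) (hℓ : GenPos ℓ) (hc : ¬ OnConic ℓ) :
    ∃ δ : ℝ, 0 < δ ∧ ∃ C : ℝ, ∀ y : Fin 2 → AlgebraicClosure k, Pool.Agent.VZ.dg y ≤ 2 →
      (∀ i, ∑ j, algebraMap k (Pool.Agent.VZ.fld y) (ℓ i j) * Pool.Agent.VZ.crd y j ≠ 0) →
      (∀ m, Four ℓ m → ∑ j, algebraMap k (Pool.Agent.VZ.fld y) (m j) * Pool.Agent.VZ.crd y j ≠ 0) →
      Pool.Agent.VZ.lam ℓ S y ≤ (q - δ) * Pool.Agent.VZ.hgt y + C := by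
  obtain ⟨δ₁, hδ₁, C₁, h₁⟩ := main_deg S hq ℓ hℓ hc 1 (Or.inl rfl)
  obtain ⟨δ₂, hδ₂, C₂, h₂⟩ := main_deg S hq ℓ hℓ hc 2 (Or.inr rfl)
  refine ⟨min δ₁ δ₂, lt_min hδ₁ hδ₂, max C₁ C₂, fun y hy hD hZ => ?_⟩
  have hh : 0 ≤ Pool.Agent.VZ.hgt y := by
    unfold Pool.Agent.VZ.hgt
    exact div_nonneg (Height.logHeight_nonneg _) (Nat.cast_nonneg _)
  have hpos : 0 < Pool.Agent.VZ.dg y := Module.finrank_pos
  obtain h | h : Pool.Agent.VZ.dg y = 1 ∨ Pool.Agent.VZ.dg y = 2 := by omega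
  · refine (h₁ y h hD hZ).trans (add_le_add (mul_le_mul_of_nonneg_right ?_ hh) (le_max_left _ _))
    have := min_le_left δ₁ δ₂
    linarith
  · refine (h₂ y h hD hZ).trans (add_le_add (mul_le_mul_of_nonneg_right ?_ hh) (le_max_right _ _))
    have := min_le_right δ₁ δ₂
    linarith

end Pool.Agent.EXP
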