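import Pool.Agent.Helper16.SL.Defs

/-!
# EX+: sums over classes of proportional units are zero
-/

set_option autoImplicit false

namespace Pool.Agent.EXP

open Pool.Agent.SL

universe u v

variable {K : Type u} {Ω : Type v} [Field K] [Field Ω] [Algebra K Ω]

/-- proportional over `K` -/
def Prp (K : Type u) {Ω : Type v} [Field K] [Field Ω] [Algebra K Ω] (y z : Ω) : Prop := ∃ a : K, a ≠ 0 ∧ z = algebraMap K Ω a * y

theorem Prp.refl (y : Ω) : Prp K y y := ⟨1, one_ne_zero, by rw [map_one, one_mul]⟩

theorem Prp.symm {y z : Ω} (h : Prp K y z) : Prp K z y := by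
  obtain ⟨a, ha, rfl⟩ := h
  refine ⟨a⁻¹, inv_ne_zero ha, ?_⟩
  rw [← mul_assoc, ← map_mul, inv_mul_cancel₀ ha, map_one, one_mul]

theorem Prp.trans {y z w : Ω} (h : Prp K y z) (h' : Prp K z w) : Prp K y w := by
  obtain ⟨a, ha, rfl⟩ := h
  obtain ⟨b, hb, rfl⟩ := h'
  exact ⟨b * a, mul_ne_zero hb ha, by rw [map_mul, mul_assoc]⟩

theorem class_sum (D : Dat K Ω) {m : ℕ} (u : Fin m → Ω) (hu : ∀ i, D.U (u i)) (c : Fin m → K)
    (h : ∑ i, algebraMap K Ω (c i) * u i = 0) (p : Fin m → Prop) [DecidablePred p]
    (hp : ∀ i j, Prp K (u i) (u j) → p i → p j) :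
    ∑ i ∈ Finset.univ.filter p, algebraMap K Ω (c i) * u i = 0 := by
  classical
  let s : Setoid (Fin m) := ⟨fun i j => Prp K (u i) (u j), fun i => Prp.refl _, fun h => h.symm, fun h h' => h.trans h'⟩
  let rep : Quotient s → Fin m := Quotient.out
  have hrep : ∀ i, Prp K (u (rep (Quotient.mk s i))) (u i) := fun i => Quotient.mk_out (s := s) i
  choose a ha0 ha using hrep
  have hind : LinearIndependent K fun x : Quotient s => u (rep x) := by
    let e : Fin (Fintype.card (Quotient s)) ≃ Quotient s := (Fintype.equivFin _).symm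
    have h1 := D.indep (Fintype.card (Quotient s)) (fun i => u (rep (e i))) (fun i => hu _) (by
      intro i j hij b hb
      apply hij
      apply e.injective
      have hb0 : b ≠ 0 := by
        rintro rfl
        rw [map_zero, zero_mul] at hb
        exact (hu _).1 hb
      have h2 : (Quotient.mk s (rep (e j)) : Quotient s) = Quotient.mk s (rep (e i)) :=
        Quotient.sound (s := s) (show Prp K (u (rep (e j))) (u (rep (e i))) from ⟨b, hb0, hb⟩)
      rw [Quotient.out_eq, Quotient.out_eq] at h2
      exact h2.symm)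
    exact (linearIndependent_equiv e).1 h1
  rw [Fintype.linearIndependent_iff] at hind
  have h2 : ∑ x : Quotient s, (∑ i ∈ Finset.univ.filter fun i => Quotient.mk s i = x, c i * a i) • u (rep x) = 0 := by
    rw [← h, ← Finset.sum_fiberwise Finset.univ (fun i => (Quotient.mk s i : Quotient s))]
    refine Finset.sum_congr rfl fun x _ => ?_
    rw [Finset.sum_smul]
    refine Finset.sum_congr rfl fun i hi => ?_
    rw [Finset.mem_filter] at hi
    rw [ha i, ← hi.2, Algebra.smul_def, map_mul, mul_assoc]
  have h3 := hind _ h2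
  rw [← Finset.sum_fiberwise (Finset.univ.filter p) (fun i => (Quotient.mk s i : Quotient s))]
  refine Finset.sum_eq_zero fun x _ => ?_
  by_cases hx : ∃ i, Quotient.mk s i = x ∧ p i
  · obtain ⟨i0, hi0, hp0⟩ := hx
    have h4 : (Finset.univ.filter p).filter (fun i => Quotient.mk s i = x) =
        Finset.univ.filter fun i => Quotient.mk s i = x := by
      ext i
      simp only [Finset.mem_filter, Finset.mem_univ, true_and]
      refine ⟨fun h => h.2, fun h => ⟨hp i0 i ?_ hp0, h⟩⟩
      exact Quotient.exact (s := s) (hi0.trans h.symm)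
    rw [h4]
    have h5 : ∑ i ∈ Finset.univ.filter (fun i => Quotient.mk s i = x), algebraMap K Ω (c i) * u i =
        algebraMap K Ω (∑ i ∈ Finset.univ.filter fun i => Quotient.mk s i = x, c i * a i) * u (rep x) := by
      rw [map_sum, Finset.sum_mul]
      refine Finset.sum_congr rfl fun i hi => ?_
      rw [Finset.mem_filter] at hi
      rw [ha i, ← hi.2, map_mul, mul_assoc]
    rw [h5, h3 x, map_zero, zero_mul]
  · push Not at hx
    rw [Finset.filter_eq_empty_iff.2, Finset.sum_empty]
    intro i hi hix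
    rw [Finset.mem_filter] at hi
    exact hx i hix hi.2

/-- a unit in a relation is proportional to another one -/
theorem exists_prp (D : Dat K Ω) {m : ℕ} (u : Fin m → Ω) (hu : ∀ i, D.U (u i)) (c : Fin m → K)
    (h : ∑ i, algebraMap K Ω (c i) * u i = 0) (i0 : Fin m) (hc : c i0 ≠ 0) : ∃ j, j ≠ i0 ∧ Prp K (u i0) (u j) := by
  classical
  by_contra hcon
  push Not at hcon
  have h1 := class_sum D u hu c h (fun j => Prp K (u i0) (u j)) fun i j hij hi => hi.trans hij
  have h2 : (Finset.univ.filter fun j => Prp K (u i0) (u j)) = {i0} := by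
    ext j
    rw [Finset.mem_filter, Finset.mem_singleton]
    constructor
    · intro hj
      by_contra hne
      exact hcon j hne hj.2
    · rintro rfl
      exact ⟨Finset.mem_univ _, Prp.refl _⟩
  rw [h2, Finset.sum_singleton] at h1
  rcases mul_eq_zero.1 h1 with h3 | h3
  · exact hc ((map_eq_zero _).1 h3)
  · exact (hu i0).1 h3

end Pool.Agent.EXP
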