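import Pool.Agent.Helper64.VZ.Defs

/-!
# EX+ (quadratic points on the complement of six lines, an inequality with an explicit exceptional set): definitions
-/

set_option autoImplicit false

namespace Pool.Agent.EXP

universe u v

/-- A nonzero quadratic form over `k` vanishes at all `ℓ i`. -/
def OnConic {k : Type u} [Field k] {q : ℕ} (ℓ : Fin q → Fin 3 → k) : Prop :=
  ∃ a : Matrix (Fin 3) (Fin 3) k, a.IsSymm ∧ a ≠ 0 ∧ ∀ i, ∑ s, ∑ t, a s t * (ℓ i s * ℓ i t) = 0

/-- The line `m = 0` meets the union of the lines `ℓ i = 0` in at most four points. -/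
def Four {k : Type u} [Field k] {q : ℕ} (ℓ : Fin q → Fin 3 → k) (m : Fin 3 → k) : Prop :=
  m ≠ 0 ∧ ∃ f : Fin q → Fin 4, ∀ i j, f i = f j → (Matrix.of ![m, ℓ i, ℓ j]).det = 0

/-- A group `G` of elements of `Ω` such that elements of `G`, if pairwise not proportional over `K`, are linearly
independent over `K`. -/
structure Grp (K : Type u) (Ω : Type v) [Field K] [Field Ω] [Algebra K Ω] where
  G : Ω → Prop
  ne : ∀ y, G y → y ≠ 0
  cst : ∀ a : K, a ≠ 0 → G (algebraMap K Ω a)
  mul : ∀ y z, G y → G z → G (y * z)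
  inv : ∀ y, G y → G y⁻¹
  indep : ∀ (n : ℕ) (y : Fin n → Ω), (∀ i, G (y i)) →
    (∀ i j, i ≠ j → ∀ a : K, y i ≠ algebraMap K Ω a * y j) → LinearIndependent K y
  root : ∀ y, G y → ∀ n : ℕ, 0 < n → ∀ a : K, y ^ n = algebraMap K Ω a → ∃ b : K, y = algebraMap K Ω b

/-- `y` is a constant -/
def Cst (K : Type u) {Ω : Type v} [Field K] [Field Ω] [Algebra K Ω] (y : Ω) : Prop :=
  ∃ a : K, y = algebraMap K Ω a

/-- The value of the linear form `ℓ` at `x`. -/
def lin {K : Type u} {Ω : Type v} [Field K] [Field Ω] [Algebra K Ω] {n : ℕ} (ℓ : Fin n → K) (x : Fin n → Ω) : Ω :=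
  ∑ j, algebraMap K Ω (ℓ j) * x j

/-- Any three of the lines have no common point. -/
def GenPos {k : Type u} [Field k] {q : ℕ} (ℓ : Fin q → Fin 3 → k) : Prop :=
  ∀ f : Fin 3 → Fin q, Function.Injective f → (Matrix.of fun i j => ℓ (f i) j).det ≠ 0

end Pool.Agent.EXP
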