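import Pool.Agent.Helper77.GS.Cl

/-!
# EX+: a product of two linear forms which is constant up to a factor has constant factors
-/

set_option autoImplicit false

namespace Pool.Agent.EXP

open Pool.Agent.GS

universe u

theorem rk_eq_zero {K Ω : Type u} [Field K] [Field Ω] [Algebra K Ω] (s : Set Ω) (h : ∀ z ∈ s, IsAlgebraic K z) :
    rk K s = 0 := by
  have h1 : s ⊆ cl K (∅ : Set Ω) := by
    intro z hz
    rw [mem_cl]
    exact (h z hz).extendScalars (algebraMap K (Algebra.adjoin K (∅ : Set Ω))).injective
  have h2 := rk_le_of_subset h1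
  have h3 : rk K (∅ : Set Ω) ≤ 0 := by
    have := rk_le_card (k := K) (∅ : Set Ω)
    rwa [Set.encard_empty] at this
  exact le_antisymm (h2.trans h3) zero_le

theorem rk_Rat_of_const {K Ω : Type u} [Field K] [CharZero K] [Field Ω] [Algebra K Ω] {n : ℕ} (x x' : Fin (n + 1) → Ω)
    (hx' : x' ≠ 0) (u : Ω) (hu : u ≠ 0) (F : Fin (n + 1) → Fin (n + 1) → K)
    (hF : ∀ s t, x s * x' t + x t * x' s = u * algebraMap K Ω (F s t)) : rk K (Rat x) = 0 := by
  have h20 : (2 : Ω) ≠ 0 := by
    have h1 : algebraMap K Ω 2 ≠ 0 := by
      rw [Ne, map_eq_zero]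
      exact two_ne_zero
    rwa [map_ofNat] at h1
  apply rk_eq_zero
  rintro _ ⟨j, a, rfl⟩
  rcases eq_or_ne (x a) 0 with ha | ha
  · rw [ha, div_zero]
    exact isAlgebraic_zero
  obtain ⟨b, hb⟩ := Function.ne_iff.1 hx'
  rw [Pi.zero_apply] at hb
  rcases eq_or_ne (x' a) 0 with ha' | ha'
  · rcases eq_or_ne (x' j) 0 with hj' | hj'
    · -- the other point has both coordinates zero
      have h1 := hF a b
      have h2 := hF j b
      rw [ha', mul_zero, add_zero] at h1
      rw [hj', mul_zero, add_zero] at h2
      have h3 : algebraMap K Ω (F a b) ≠ 0 := by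
        intro h0
        rw [h0, mul_zero] at h1
        exact mul_ne_zero ha hb h1
      have h4 : x j / x a = algebraMap K Ω (F j b / F a b) := by
        rw [map_div₀, div_eq_div_iff ha h3]
        apply mul_right_cancel₀ hu
        apply mul_right_cancel₀ hb
        linear_combination (-x j * x' b) * h1 + (x a * x' b) * h2
      rw [h4]
      exact isAlgebraic_algebraMap _
    · -- `F a a = 0`, `F a j ≠ 0`
      have h1 := hF a j
      have h2 := hF j j
      rw [ha', mul_zero, add_zero] at h1
      have h3 : algebraMap K Ω (F a j) ≠ 0 := by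
        intro h0
        rw [h0, mul_zero] at h1
        exact mul_ne_zero ha hj' h1
      have h4 : x j / x a = algebraMap K Ω (F j j / (2 * F a j)) := by
        rw [map_div₀, map_mul, map_ofNat, div_eq_div_iff ha (mul_ne_zero h20 h3)]
        apply mul_right_cancel₀ hu
        linear_combination (-2 * x j) * h1 + (x a) * h2
      rw [h4]
      exact isAlgebraic_algebraMap _
  · -- a quadratic equation
    have h1 := hF a a
    have h2 := hF a j
    have h3 := hF j j
    have h4 : algebraMap K Ω (F a a) ≠ 0 := by
      intro h0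
      rw [h0, mul_zero] at h1
      have : (2 : Ω) * (x a * x' a) = 0 := by linear_combination h1
      exact mul_ne_zero h20 (mul_ne_zero ha ha') this
    have h5 : F a a ≠ 0 := by
      intro h0
      rw [h0, map_zero] at h4
      exact h4 rfl
    refine ⟨Polynomial.C (F a a) * Polynomial.X ^ 2 - Polynomial.C (2 * F a j) * Polynomial.X + Polynomial.C (F j j),
      fun h0 => h5 ?_, ?_⟩
    · have := congrArg (fun p => Polynomial.coeff p 2) h0
      simpa [Polynomial.coeff_X, Polynomial.coeff_C] using this
    · simp only [map_add, map_sub, map_mul, map_pow, Polynomial.aeval_C, Polynomial.aeval_X, map_ofNat]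
      have h6 : u * (algebraMap K Ω (F a a) * (x j / x a) ^ 2 - 2 * algebraMap K Ω (F a j) * (x j / x a) +
          algebraMap K Ω (F j j)) = 0 := by
        have e1 : u * (algebraMap K Ω (F a a) * (x j / x a) ^ 2 - 2 * algebraMap K Ω (F a j) * (x j / x a) +
          algebraMap K Ω (F j j)) = (u * algebraMap K Ω (F a a)) * (x j / x a) ^ 2 -
            2 * (u * algebraMap K Ω (F a j)) * (x j / x a) + u * algebraMap K Ω (F j j) := by ring
        rw [e1, ← h1, ← h2, ← h3]
        field_simp
        ring
      rcases mul_eq_zero.1 h6 with h7 | h7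
      · exact absurd h7 hu
      · exact h7

end Pool.Agent.EXP
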