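import Pool.Agent.Helper16.EXP.Cls
import Pool.Agent.Helper16.EXP.Rk0

/-!
# EX+: a fixed line which meets the lines in at least five points

On the line, the units `u i` are the values of a binary quadratic form at five pairwise independent vectors; any four of them satisfy a
relation with nonzero coefficients. So each is proportional to one of any three others, so all are proportional.
-/

set_option autoImplicit false

namespace Pool.Agent.EXP

open Pool.Agent.SL

universe u v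

section

variable {K : Type u} {Ω : Type v} [Field K] [Field Ω] [Algebra K Ω]

theorem three_others' : ∀ i j : Fin 5, i ≠ j → ∃ a b c : Fin 5, [i, j, a, b, c].Nodup := by
  decide

theorem three_others (i j : Fin 5) (h : i ≠ j) : ∃ a b c : Fin 5, i ≠ a ∧ i ≠ b ∧ i ≠ c ∧ j ≠ a ∧ j ≠ b ∧ j ≠ c ∧
    a ≠ b ∧ a ≠ c ∧ b ≠ c := by
  obtain ⟨a, b, c, h⟩ := three_others' i j h
  simp only [List.nodup_cons, List.mem_cons, List.not_mem_nil, or_false, not_or, List.nodup_nil, not_false_eq_true,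
    and_true] at h
  exact ⟨a, b, c, h.1.2.1, h.1.2.2.1, h.1.2.2.2, h.2.1.1, h.2.1.2.1, h.2.1.2.2, h.2.2.1.1, h.2.2.1.2, h.2.2.2⟩

theorem comb5 (r : Fin 5 → Fin 5 → Prop) (h1 : ∀ i, r i i) (h2 : ∀ i j, r i j → r j i) (h3 : ∀ i j k, r i j → r j k → r i k)
    (h : ∀ i j k l, i ≠ j → i ≠ k → i ≠ l → j ≠ k → j ≠ l → k ≠ l → r i j ∨ r i k ∨ r i l) : ∀ i j, r i j := by
  intro i j
  by_contra hij
  have hne : i ≠ j := by
    rintro rfl
    exact hij (h1 i)
  obtain ⟨a, b, c, ia, ib, ic, ja, jb, jc, ab, ac, bc⟩ := three_others i j hne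
  have hji : ¬ r j i := fun h => hij (h2 _ _ h)
  have i1 := (h i j a b hne ia ib ja jb ab).resolve_left hij
  have i2 := (h i j a c hne ia ic ja jc ac).resolve_left hij
  have i3 := (h i j b c hne ib ic jb jc bc).resolve_left hij
  have j1 := (h j i a b hne.symm ja jb ia ib ab).resolve_left hji
  have j2 := (h j i a c hne.symm ja jc ia ic ac).resolve_left hji
  have j3 := (h j i b c hne.symm jb jc ib ic bc).resolve_left hji
  have t : ∀ m, r i m → ¬ r j m := fun m h4 h5 => hij (h3 _ _ _ h4 (h2 _ _ h5))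
  rcases i1 with h4 | h4
  · have h5 := t a h4
    have h6 := j1.resolve_left h5
    have h7 := j2.resolve_left h5
    have h8 : ¬ r i b := fun h => t b h h6
    have h9 : ¬ r i c := fun h => t c h h7
    exact h9 (i3.resolve_left h8)
  · have h5 := t b h4
    have h6 := j1.resolve_right h5
    have h7 := j3.resolve_left h5
    have h8 : ¬ r i a := fun h => t a h h6
    have h9 : ¬ r i c := fun h => t c h h7
    exact h9 (i2.resolve_left h8)

/-- four values of a binary quadratic form -/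
theorem four_rel {R : Type*} [CommRing R] (A B C b0 c0 b1 c1 b2 c2 b3 c3 : R) :
    ((b1 * c2 - b2 * c1) * (b1 * c3 - b3 * c1) * (b2 * c3 - b3 * c2)) * (A * b0 ^ 2 + B * (b0 * c0) + C * c0 ^ 2) +
    (-((b0 * c2 - b2 * c0) * (b0 * c3 - b3 * c0) * (b2 * c3 - b3 * c2))) * (A * b1 ^ 2 + B * (b1 * c1) + C * c1 ^ 2) +
    ((b0 * c1 - b1 * c0) * (b0 * c3 - b3 * c0) * (b1 * c3 - b3 * c1)) * (A * b2 ^ 2 + B * (b2 * c2) + C * c2 ^ 2) +
    (-((b0 * c1 - b1 * c0) * (b0 * c2 - b2 * c0) * (b1 * c2 - b2 * c1))) *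
      (A * b3 ^ 2 + B * (b3 * c3) + C * c3 ^ 2) = 0 := by
  ring

theorem all_prp (D : Dat K Ω) (b c : Fin 5 → K) (hbc : ∀ i j, i ≠ j → b i * c j - b j * c i ≠ 0) (A B C : Ω)
    (u : Fin 5 → Ω) (hu : ∀ i, D.U (u i))
    (h : ∀ i, u i = A * algebraMap K Ω (b i) ^ 2 + B * (algebraMap K Ω (b i) * algebraMap K Ω (c i)) +
      C * algebraMap K Ω (c i) ^ 2) : ∀ i j, Prp K (u i) (u j) := by
  apply comb5 (fun i j => Prp K (u i) (u j)) (fun i => Prp.refl _) (fun i j h => h.symm) (fun i j k h h' => h.trans h')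
  intro i j k l ij ik il jk jl kl
  have h1 := four_rel A B C (algebraMap K Ω (b i)) (algebraMap K Ω (c i)) (algebraMap K Ω (b j)) (algebraMap K Ω (c j))
    (algebraMap K Ω (b k)) (algebraMap K Ω (c k)) (algebraMap K Ω (b l)) (algebraMap K Ω (c l))
  rw [← h, ← h, ← h, ← h] at h1
  obtain ⟨m, hm, hp⟩ := exists_prp D ![u i, u j, u k, u l] (by
      intro m
      fin_cases m
      · exact hu i
      · exact hu j
      · exact hu k
      · exact hu l)
    ![(b j * c k - b k * c j) * (b j * c l - b l * c j) * (b k * c l - b l * c k),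
      -((b i * c k - b k * c i) * (b i * c l - b l * c i) * (b k * c l - b l * c k)),
      (b i * c j - b j * c i) * (b i * c l - b l * c i) * (b j * c l - b l * c j),
      -((b i * c j - b j * c i) * (b i * c k - b k * c i) * (b j * c k - b k * c j))] (by
      rw [Fin.sum_univ_four]
      simp only [Matrix.cons_val, map_mul, map_neg, map_sub]
      exact h1) 0 (by
      simp only [Matrix.cons_val]
      exact mul_ne_zero (mul_ne_zero (hbc j k jk) (hbc j l jl)) (hbc k l kl))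
  fin_cases m
  · exact absurd rfl hm
  · exact Or.inl hp
  · exact Or.inr (Or.inl hp)
  · exact Or.inr (Or.inr hp)

end

/-- the value of a linear form -/
theorem line5 {K Ω : Type u} [Field K] [CharZero K] [Field Ω] [Algebra K Ω] (D : Dat K Ω) (L : Fin 3 → K)
    (ℓ : Fin 5 → Fin 3 → K) (hℓ : ∀ i j, i ≠ j → (Matrix.of ![L, ℓ i, ℓ j]).det ≠ 0) (x x' : Fin 3 → Ω)
    (hx' : x' ≠ 0) (hxL : SL.lin L x = 0) (hxL' : SL.lin L x' = 0)
    (hu : ∀ i, D.U (SL.lin (ℓ i) x * SL.lin (ℓ i) x')) : GS.rk K (GS.Rat (N := 2) x) = 0 := by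
  classical
  set M : Matrix (Fin 3) (Fin 3) K := Matrix.of ![L, ℓ 0, ℓ 1] with hM
  have hdet : IsUnit M.det := (hℓ 0 1 (by decide)).isUnit
  set b : Fin 5 → K := fun i => (Matrix.vecMul (ℓ i) M⁻¹) 1 with hb
  set c : Fin 5 → K := fun i => (Matrix.vecMul (ℓ i) M⁻¹) 2 with hc
  -- coordinates
  have hcoord : ∀ (y : Fin 3 → Ω), SL.lin L y = 0 → ∀ s, y s = algebraMap K Ω (M⁻¹ s 1) * SL.lin (ℓ 0) y +
      algebraMap K Ω (M⁻¹ s 2) * SL.lin (ℓ 1) y := by
    intro y hy s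
    have h1 : (M⁻¹ * M) = 1 := Matrix.nonsing_inv_mul M hdet
    have h2 : ∀ t, ∑ a, M⁻¹ s a * M a t = if s = t then 1 else 0 := by
      intro t
      have := congrFun (congrFun h1 s) t
      rw [Matrix.mul_apply, Matrix.one_apply] at this
      exact this
    have h3 : y s = ∑ a, algebraMap K Ω (M⁻¹ s a) * ∑ t, algebraMap K Ω (M a t) * y t := by
      have h4 : ∑ a, algebraMap K Ω (M⁻¹ s a) * ∑ t, algebraMap K Ω (M a t) * y t =
          ∑ t, algebraMap K Ω (∑ a, M⁻¹ s a * M a t) * y t := by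
        simp only [Finset.mul_sum, map_sum, map_mul, Finset.sum_mul]
        rw [Finset.sum_comm]
        exact Finset.sum_congr rfl fun t _ => Finset.sum_congr rfl fun a _ => by ring
      rw [h4]
      simp only [h2, apply_ite (algebraMap K Ω), map_one, map_zero, ite_mul, one_mul, zero_mul, Finset.sum_ite_eq,
        Finset.mem_univ, if_true]
    rw [h3, Fin.sum_univ_three]
    have e0 : ∑ t, algebraMap K Ω (M 0 t) * y t = 0 := hy
    have e1 : ∑ t, algebraMap K Ω (M 1 t) * y t = SL.lin (ℓ 0) y := rfl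
    have e2 : ∑ t, algebraMap K Ω (M 2 t) * y t = SL.lin (ℓ 1) y := rfl
    rw [e0, e1, e2, mul_zero, zero_add]
  have hval : ∀ (y : Fin 3 → Ω), SL.lin L y = 0 → ∀ i, SL.lin (ℓ i) y = algebraMap K Ω (b i) * SL.lin (ℓ 0) y +
      algebraMap K Ω (c i) * SL.lin (ℓ 1) y := by
    intro y hy i
    have h1 : SL.lin (ℓ i) y = ∑ s, algebraMap K Ω (ℓ i s) * (algebraMap K Ω (M⁻¹ s 1) * SL.lin (ℓ 0) y +
        algebraMap K Ω (M⁻¹ s 2) * SL.lin (ℓ 1) y) := by
      conv_lhs => unfold SL.lin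
      exact Finset.sum_congr rfl fun s _ => by rw [← hcoord y hy s]
    rw [h1, hb, hc]
    simp only [Matrix.vecMul, dotProduct, map_sum, map_mul, Finset.sum_mul, mul_add, Finset.sum_add_distrib]
    congr 1
    · exact Finset.sum_congr rfl fun s _ => by ring
    · exact Finset.sum_congr rfl fun s _ => by ring
  have hbc : ∀ i j, i ≠ j → b i * c j - b j * c i ≠ 0 := by
    intro i j hij h0
    have h1 : (Matrix.of ![L, ℓ i, ℓ j] * M⁻¹).det ≠ 0 := by
      rw [Matrix.det_mul]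
      refine mul_ne_zero (hℓ i j hij) ?_
      rw [Matrix.det_nonsing_inv]
      exact (hdet.ringInverse).ne_zero
    apply h1
    have h2 : ∀ t, (Matrix.of ![L, ℓ i, ℓ j] * M⁻¹) 0 t = if (0 : Fin 3) = t then 1 else 0 := by
      intro t
      have h3 : (M * M⁻¹) 0 t = (1 : Matrix (Fin 3) (Fin 3) K) 0 t := by rw [Matrix.mul_nonsing_inv M hdet]
      rw [Matrix.one_apply] at h3
      rw [← h3, Matrix.mul_apply, Matrix.mul_apply]
      rfl
    have h4 : ∀ t, (Matrix.of ![L, ℓ i, ℓ j] * M⁻¹) 1 t = (Matrix.vecMul (ℓ i) M⁻¹) t := fun t => rfl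
    have h5 : ∀ t, (Matrix.of ![L, ℓ i, ℓ j] * M⁻¹) 2 t = (Matrix.vecMul (ℓ j) M⁻¹) t := fun t => rfl
    rw [Matrix.det_fin_three, h2, h2, h2, h4, h4, h4, h5, h5, h5]
    simp only [if_true, Fin.reduceEq, if_false]
    linear_combination h0
  set p := SL.lin (ℓ 0) x with hp
  set r := SL.lin (ℓ 1) x with hr
  set p' := SL.lin (ℓ 0) x' with hp'
  set r' := SL.lin (ℓ 1) x' with hr'
  have hall := all_prp D b c hbc (p * p') (p * r' + r * p') (r * r') (fun i => SL.lin (ℓ i) x * SL.lin (ℓ i) x') hu (by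
    intro i
    show SL.lin (ℓ i) x * SL.lin (ℓ i) x' = _
    rw [hval x hxL i, hval x' hxL' i]
    ring)
  obtain ⟨α, hα0, hα⟩ := hall 0 1
  obtain ⟨β, hβ0, hβ⟩ := hall 0 2
  have hu0 : p * p' ≠ 0 := (hu 0).1
  have hα' : r * r' = algebraMap K Ω α * (p * p') := hα
  have hβ' : SL.lin (ℓ 2) x * SL.lin (ℓ 2) x' = algebraMap K Ω β * (p * p') := hβ
  -- the middle coefficient
  have hb2 : b 2 ≠ 0 := by
    intro h0
    have h1 : b 1 = 0 := by
      show (Matrix.vecMul (ℓ 1) M⁻¹) 1 = 0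
      have h3 : (M * M⁻¹) 2 1 = (1 : Matrix (Fin 3) (Fin 3) K) 2 1 := by rw [Matrix.mul_nonsing_inv M hdet]
      exact h3
    exact hbc 1 2 (by decide) (by rw [h0, h1]; ring)
  have hc2 : c 2 ≠ 0 := by
    intro h0
    have h1 : c 0 = 0 := by
      show (Matrix.vecMul (ℓ 0) M⁻¹) 2 = 0
      have h3 : (M * M⁻¹) 1 2 = (1 : Matrix (Fin 3) (Fin 3) K) 1 2 := by rw [Matrix.mul_nonsing_inv M hdet]
      exact h3
    exact hbc 0 2 (by decide) (by rw [h0, h1]; ring)
  have hmid : p * r' + r * p' = algebraMap K Ω ((β - b 2 ^ 2 - c 2 ^ 2 * α) / (b 2 * c 2)) * (p * p') := by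
    have h1 : algebraMap K Ω (b 2 * c 2) ≠ 0 := by
      rw [Ne, map_eq_zero]
      exact mul_ne_zero hb2 hc2
    rw [map_div₀, div_mul_eq_mul_div, eq_div_iff h1]
    rw [hval x hxL 2, hval x' hxL' 2] at hβ'
    simp only [map_sub, map_mul, map_pow]
    linear_combination hβ' - algebraMap K Ω (c 2) ^ 2 * hα'
  apply rk_Rat_of_const x x' hx' (p * p') hu0 fun s t => 2 * (M⁻¹ s 1 * M⁻¹ t 1) +
    (M⁻¹ s 1 * M⁻¹ t 2 + M⁻¹ s 2 * M⁻¹ t 1) * ((β - b 2 ^ 2 - c 2 ^ 2 * α) / (b 2 * c 2)) +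
    2 * (M⁻¹ s 2 * M⁻¹ t 2) * α
  intro s t
  rw [hcoord x hxL s, hcoord x hxL t, hcoord x' hxL' s, hcoord x' hxL' t]
  rw [map_add, map_add, map_mul, map_mul, map_mul, map_mul, map_mul, map_add, map_mul, map_mul, map_mul, map_ofNat]
  linear_combination (algebraMap K Ω (M⁻¹ s 1) * algebraMap K Ω (M⁻¹ t 2) + algebraMap K Ω (M⁻¹ s 2) * algebraMap K Ω (M⁻¹ t 1)) * hmid +
    2 * (algebraMap K Ω (M⁻¹ s 2) * algebraMap K Ω (M⁻¹ t 2)) * hα'

end Pool.Agent.EXP
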