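import Pool.Agent.Helper16.EXP.Sub
import Pool.Agent.Helper16.EXP.L5

/-!
# EX+: not all ratios are constant
-/

set_option autoImplicit false

namespace Pool.Agent.EXP

open Pool.Agent.EX

universe u

/-- the dual basis -/
theorem exists_dual16 {K : Type u} [Field K] (v : Fin 6 → Fin 3 → K) (h : NC6 v) :
    ∃ G : Fin 6 → Fin 6 → K, ∀ (R : Type u) [CommRing R] [Algebra K R] (q : Fin 6 → R) (m : Fin 6),
      q m = ∑ i, algebraMap K R (G m i) * val q fun j => algebraMap K R (v i j) := by
  classical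
  set W : Matrix (Fin 6) (Fin 6) K := Matrix.of fun i m => ver (v i) m with hW
  have hdet : IsUnit W.det := by
    rw [isUnit_iff_ne_zero, Ne, ← Matrix.exists_mulVec_eq_zero_iff]
    rintro ⟨p, hp, hp2⟩
    apply hp
    apply h
    intro j
    rw [val_eq_ver]
    exact congrFun hp2 j
  refine ⟨fun m i => W⁻¹ m i, fun R _ _ q m => ?_⟩
  have h1 : ∀ i, (val q fun j => algebraMap K R (v i j)) = ∑ m, algebraMap K R (W i m) * q m := by
    intro i
    rw [val_eq_ver]
    refine Finset.sum_congr rfl fun m _ => ?_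
    congr 1
    fin_cases m <;> simp [ver, hW]
  simp only [h1, Finset.mul_sum]
  rw [Finset.sum_comm]
  have h2 : ∀ m', ∑ i, W⁻¹ m i * W i m' = if m = m' then 1 else 0 := by
    intro m'
    have h3 : (W⁻¹ * W) m m' = (1 : Matrix (Fin 6) (Fin 6) K) m m' := by rw [Matrix.nonsing_inv_mul W hdet]
    rw [Matrix.mul_apply, Matrix.one_apply] at h3
    exact h3
  have h4 : ∀ m', ∑ i, algebraMap K R (W⁻¹ m i) * (algebraMap K R (W i m') * q m') =
      algebraMap K R (∑ i, W⁻¹ m i * W i m') * q m' := by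
    intro m'
    rw [map_sum, Finset.sum_mul]
    exact Finset.sum_congr rfl fun i _ => by rw [map_mul, mul_assoc]
  simp only [h4, h2, apply_ite (algebraMap K R), map_one, map_zero, ite_mul, one_mul, zero_mul, Finset.sum_ite_eq,
    Finset.mem_univ, if_true]

theorem lin_eq_dot {K Ω : Type u} [Field K] [Field Ω] [Algebra K Ω] (ℓ : Fin 3 → K) (x : Fin 3 → Ω) :
    SL.lin ℓ x = dot (fun j => algebraMap K Ω (ℓ j)) x := by
  unfold SL.lin dot
  rw [Fin.sum_univ_three]

/-- if all ratios of the six values are constant, the point is constant -/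
theorem rk_of_all_cst {K Ω : Type u} [Field K] [CharZero K] [Field Ω] [Algebra K Ω] (v : Fin 6 → Fin 3 → K)
    (h : NC6 v) (x x' : Fin 3 → Ω) (hx' : x' ≠ 0)
    (hu : ∀ i, SL.lin (v i) x * SL.lin (v i) x' ≠ 0)
    (hc : ∀ i j, SL.Cst K ((SL.lin (v i) x * SL.lin (v i) x') / (SL.lin (v j) x * SL.lin (v j) x'))) :
    GS.rk K (GS.Rat (N := 2) x) = 0 := by
  classical
  obtain ⟨G, hG⟩ := exists_dual16 v h
  choose a ha using fun i => hc i 0
  set u := SL.lin (v 0) x * SL.lin (v 0) x' with hu0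
  have hval : ∀ i, (val (prd x x') fun j => algebraMap K Ω (v i j)) = algebraMap K Ω (a i) * u := by
    intro i
    rw [val_prd, ← lin_eq_dot, ← lin_eq_dot, ← ha i, div_mul_cancel₀ _ (hu 0)]
  have hq : ∀ m, prd x x' m = u * algebraMap K Ω (∑ i, G m i * a i) := by
    intro m
    rw [hG Ω (prd x x') m, map_sum, Finset.mul_sum]
    refine Finset.sum_congr rfl fun i _ => ?_
    rw [hval, map_mul]
    ring
  set b : Fin 6 → K := fun m => ∑ i, G m i * a i with hb
  have e0 : x 0 * x' 0 = u * algebraMap K Ω (b 0) := hq 0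
  have e1 : x 1 * x' 1 = u * algebraMap K Ω (b 1) := hq 1
  have e2 : x 2 * x' 2 = u * algebraMap K Ω (b 2) := hq 2
  have e3 : x 1 * x' 2 + x 2 * x' 1 = u * algebraMap K Ω (b 3) := hq 3
  have e4 : x 0 * x' 2 + x 2 * x' 0 = u * algebraMap K Ω (b 4) := hq 4
  have e5 : x 0 * x' 1 + x 1 * x' 0 = u * algebraMap K Ω (b 5) := hq 5
  apply rk_Rat_of_const x x' hx' u (hu 0) fun s t =>
    (![![2 * b 0, b 5, b 4], ![b 5, 2 * b 1, b 3], ![b 4, b 3, 2 * b 2]] : Fin 3 → Fin 3 → K) s t
  intro s t
  fin_cases s <;> fin_cases t <;> simp only [Fin.zero_eta, Fin.mk_one, Fin.reduceFinMk, Matrix.cons_val, map_mul,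
    map_ofNat]
  · linear_combination 2 * e0
  · linear_combination e5
  · linear_combination e4
  · linear_combination e5
  · linear_combination 2 * e1
  · linear_combination e3
  · linear_combination e4
  · linear_combination e3
  · linear_combination 2 * e2

end Pool.Agent.EXP
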