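import Pool.Agent.Helper16.FIN.Chart
import Pool.Agent.Helper16.EXP.Defs

/-!
# EX+: from affine to projective points
-/

set_option autoImplicit false

namespace Pool.Agent.EXP

open NumberField IntermediateField Pool.Agent.Helper64.Vojta Pool.Agent.Chart

universe u

theorem det_perm {k : Type u} [Field k] (M : Matrix (Fin 3) (Fin 3) k) (e : Equiv.Perm (Fin 3)) :
    (Matrix.of fun i j => M i (e j)).det = 0 ↔ M.det = 0 := by
  have h1 : (Matrix.of fun i j => M i (e j)) = M.submatrix id e := rfl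
  rw [h1, Matrix.det_permute']
  rcases Int.units_eq_one_or (Equiv.Perm.sign e) with h | h
  · rw [h]
    simp
  · rw [h]
    simp

theorem genPos_perm {k : Type u} [Field k] {q : ℕ} (ℓ : Fin q → Fin 3 → k) (hℓ : GenPos ℓ) (e : Equiv.Perm (Fin 3)) :
    GenPos fun i => ℓ i ∘ e := by
  intro f hf h
  exact hℓ f hf ((det_perm (Matrix.of fun i j => ℓ (f i) j) e).1 h)

theorem onConic_perm {k : Type u} [Field k] {q : ℕ} (ℓ : Fin q → Fin 3 → k) (e : Equiv.Perm (Fin 3))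
    (h : OnConic fun i => ℓ i ∘ e) : OnConic ℓ := by
  obtain ⟨a, ha, ha0, h⟩ := h
  refine ⟨a.submatrix e.symm e.symm, ha.submatrix _, fun h0 => ha0 ?_, fun i => ?_⟩
  · ext s t
    have := congrFun (congrFun h0 (e s)) (e t)
    simpa using this
  · rw [← h i, ← Equiv.sum_comp e]
    refine Finset.sum_congr rfl fun s _ => ?_
    rw [← Equiv.sum_comp e]
    refine Finset.sum_congr rfl fun t _ => ?_
    simp

theorem four_perm {k : Type u} [Field k] {q : ℕ} (ℓ : Fin q → Fin 3 → k) (m : Fin 3 → k) (e : Equiv.Perm (Fin 3))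
    (h : Four (fun i => ℓ i ∘ e) m) : Four ℓ (m ∘ e.symm) := by
  obtain ⟨hm, f, hf⟩ := h
  refine ⟨fun h0 => hm ?_, f, fun i j hij => ?_⟩
  · funext s
    have := congrFun h0 (e s)
    simpa using this
  · rw [← det_perm _ e]
    have h1 := hf i j hij
    rw [← h1]
    congr 1
    ext s t
    fin_cases s <;> simp

/-- from the affine theorem to all points -/
theorem proj_of_aff {k : Type u} [Field k] [NumberField k] {q : ℕ} (S : Finset (Pl k))
    (H : ∀ ℓ : Fin q → Fin 3 → k, GenPos ℓ → ¬ OnConic ℓ →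
      ∃ δ : ℝ, 0 < δ ∧ ∃ C : ℝ, ∀ y : Fin 2 → AlgebraicClosure k, Pool.Agent.VZ.dg y ≤ 2 →
        (∀ i, ∑ j, algebraMap k (Pool.Agent.VZ.fld y) (ℓ i j) * Pool.Agent.VZ.crd y j ≠ 0) →
        (∀ m, Four ℓ m → ∑ j, algebraMap k (Pool.Agent.VZ.fld y) (m j) * Pool.Agent.VZ.crd y j ≠ 0) →
        Pool.Agent.VZ.lam ℓ S y ≤ (q - δ) * Pool.Agent.VZ.hgt y + C)
    (ℓ : Fin q → Fin 3 → k) (hℓ : GenPos ℓ) (hc : ¬ OnConic ℓ) :
    ∃ δ : ℝ, 0 < δ ∧ ∃ C : ℝ, ∀ x : Fin 3 → AlgebraicClosure k, (∃ j, x j = 1) → dg x ≤ 2 →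
      (∀ i, val (ℓ i) x ≠ 0) → (∀ m, Four ℓ m → val m x ≠ 0) →
      ∑ ν ∈ S, ∑ i, lam (ℓ i) ν x ≤ (q - δ) * hgt x + C := by
  classical
  have h1 : ∀ j : Fin 3, ∃ δ : ℝ, 0 < δ ∧ ∃ C : ℝ, ∀ x : Fin 3 → AlgebraicClosure k, x j = 1 → dg x ≤ 2 →
      (∀ i, val (ℓ i) x ≠ 0) → (∀ m, Four ℓ m → val m x ≠ 0) →
      ∑ ν ∈ S, ∑ i, lam (ℓ i) ν x ≤ (q - δ) * hgt x + C := by
    intro j
    obtain ⟨δ, hδ, C, hC⟩ := H (fun i => ℓ i ∘ Equiv.swap 0 j) (genPos_perm ℓ hℓ _)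
      (fun h => hc (onConic_perm ℓ _ h))
    refine ⟨δ, hδ, C, fun x hx hd hD hZ => ?_⟩
    have h3 := hC (aff x j) ?_ ?_ ?_
    · rw [lam_aff x j hx, hgt_aff x j hx] at h3
      exact h3
    · rw [dg_aff x j hx]
      exact hd
    · intro i h0
      exact hD i ((val_aff x j hx (ℓ i)).1 h0)
    · intro m hm h0
      refine hZ _ (four_perm ℓ m _ hm) ((val_aff x j hx _).1 ?_)
      rw [← h0]
      refine Finset.sum_congr rfl fun s _ => ?_
      simp
  choose δ hδ C hC using h1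
  have hne : (Finset.univ : Finset (Fin 3)).Nonempty := ⟨0, Finset.mem_univ 0⟩
  refine ⟨Finset.univ.inf' hne δ, (Finset.lt_inf'_iff hne).2 fun j _ => hδ j, Finset.univ.sup' hne C, ?_⟩
  rintro x ⟨j, hj⟩ hd hD hZ
  refine (hC j x hj hd hD hZ).trans (add_le_add (mul_le_mul_of_nonneg_right ?_ ?_)
    (Finset.le_sup' C (Finset.mem_univ j)))
  · have := Finset.inf'_le δ (Finset.mem_univ j)
    linarith
  · unfold hgt
    exact div_nonneg (Height.logHeight_nonneg _) (Nat.cast_nonneg _)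

end Pool.Agent.EXP
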