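import Pool.Agent.Helper16.EXP.Defs

/-!
# EX+: the statements (skeleton; not to be imported by finished files)

`K` = slow germs (algebraically closed in `Ω`), `D.G` = `K^*` times the germs of almost units, `x`, `x'` = the germs of the
point and its conjugate (with arbitrary scaling of `x'`).
-/

set_option autoImplicit false

namespace Pool.Agent.EXP.Stmt

open Pool.Agent.EXP NumberField IntermediateField Pool.Agent.Helper64.Vojta

universe u

/-- block ALG (helper36): six lines, the point is constant or on the line `L` through two nodes `a b`, `c d` -/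
theorem six {K Ω : Type u} [Field K] [IsAlgClosed K] [CharZero K] [Field Ω] [Algebra K Ω] (D : Grp K Ω)
    (ℓ : Fin 6 → Fin 3 → K) (hℓ : GenPos ℓ) (hc : ¬ OnConic ℓ) (x x' : Fin 3 → Ω) (hx0 : x 0 = 1)
    (hu : ∀ i, D.G (lin (ℓ i) x * lin (ℓ i) x')) :
    (∀ j, Cst K (x j)) ∨
      ∃ a b c d : Fin 6, a ≠ b ∧ a ≠ c ∧ a ≠ d ∧ b ≠ c ∧ b ≠ d ∧ c ≠ d ∧ ∀ L : Fin 3 → K,
        (Matrix.of ![L, ℓ a, ℓ b]).det = 0 → (Matrix.of ![L, ℓ c, ℓ d]).det = 0 →
        lin L x = 0 ∧ lin L x' = 0 := by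
  sorry

/-- block L5: a fixed line `L` with at least five points -/
theorem five {K Ω : Type u} [Field K] [IsAlgClosed K] [CharZero K] [Field Ω] [Algebra K Ω] (D : Grp K Ω)
    (L : Fin 3 → K) (ℓ : Fin 5 → Fin 3 → K)
    (hℓ : ∀ i j, i ≠ j → (Matrix.of ![L, ℓ i, ℓ j]).det ≠ 0) (x x' : Fin 3 → Ω) (hx0 : x 0 = 1)
    (hxL : lin L x = 0) (hxL' : lin L x' = 0) (hu : ∀ i, D.G (lin (ℓ i) x * lin (ℓ i) x')) :
    ∀ j, Cst K (x j) := by
  sorry

/-- block COMB: a line which does not meet the `q` lines in at most four points meets five of them in different points -/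
theorem five_of_not_four {k : Type u} [Field k] {q : ℕ} (ℓ : Fin q → Fin 3 → k) (hℓ : GenPos ℓ) (hq : 6 ≤ q)
    (m : Fin 3 → k) (hm : m ≠ 0) (h : ¬ Four ℓ m) :
    ∃ f : Fin 5 → Fin q, ∀ i j, i ≠ j → (Matrix.of ![m, ℓ (f i), ℓ (f j)]).det ≠ 0 := by
  sorry

/-- block SUB: six of the lines are not on a conic, also over `K` -/
theorem exists_six {k K : Type u} [Field k] [CharZero k] [Field K] [Algebra k K] {q : ℕ} (hq : 6 ≤ q)
    (ℓ : Fin q → Fin 3 → k) (hℓ : GenPos ℓ) (hc : ¬ OnConic ℓ) :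
    ∃ f : Fin 6 → Fin q, Function.Injective f ∧
      ¬ OnConic (fun i j => algebraMap k K (ℓ (f i) j)) := by
  sorry

/-- the algebra: `q ≥ 6` lines over `k`, `K` contains `k` -/
theorem alg {k K Ω : Type u} [Field k] [CharZero k] [Field K] [IsAlgClosed K] [Field Ω] [Algebra k K] [Algebra K Ω]
    (D : Grp K Ω) {q : ℕ} (hq : 6 ≤ q) (ℓ : Fin q → Fin 3 → k) (hℓ : GenPos ℓ) (hc : ¬ OnConic ℓ)
    (x x' : Fin 3 → Ω) (hx0 : x 0 = 1)
    (hu : ∀ i, D.G (lin (fun j => algebraMap k K (ℓ i j)) x * lin (fun j => algebraMap k K (ℓ i j)) x')) :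
    (∀ j, Cst K (x j)) ∨ ∃ m : Fin 3 → k, Four ℓ m ∧ lin (fun j => algebraMap k K (m j)) x = 0 := by
  sorry

/-- the theorem, affine form -/
theorem main {k : Type u} [Field k] [NumberField k] (S : Finset (Pl k)) {q : ℕ} (hq : 6 ≤ q)
    (ℓ : Fin q → Fin 3 → k) (hℓ : GenPos ℓ) (hc : ¬ OnConic ℓ) :
    ∃ δ : ℝ, 0 < δ ∧ ∃ C : ℝ, ∀ y : Fin 2 → AlgebraicClosure k, Pool.Agent.VZ.dg y ≤ 2 →
      (∀ i, ∑ j, algebraMap k (Pool.Agent.VZ.fld y) (ℓ i j) * Pool.Agent.VZ.crd y j ≠ 0) →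
      (∀ m, Four ℓ m → ∑ j, algebraMap k (Pool.Agent.VZ.fld y) (m j) * Pool.Agent.VZ.crd y j ≠ 0) →
      Pool.Agent.VZ.lam ℓ S y ≤ (q - δ) * Pool.Agent.VZ.hgt y + C := by
  sorry

end Pool.Agent.EXP.Stmt
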