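import Pool.Agent.Helper16.EXP.Defs
import Pool.Agent.Helper36.EX.Defs

/-!
# EX+: six of the lines not on a conic; lines with at least five points
-/

set_option autoImplicit false

namespace Pool.Agent.EXP

open Pool.Agent.EX

universe u v

/-- the Veronese vector -/
def ver {R : Type*} [CommRing R] (v : Fin 3 → R) : Fin 6 → R :=
  ![v 0 ^ 2, v 1 ^ 2, v 2 ^ 2, v 1 * v 2, v 0 * v 2, v 0 * v 1]

theorem val_eq_ver {R : Type*} [CommRing R] (q : Fin 6 → R) (v : Fin 3 → R) : val q v = ∑ m, ver v m * q m := by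
  rw [Fin.sum_univ_six]
  simp only [val, ver, Matrix.cons_val]
  ring

theorem exists_six {k : Type u} {K : Type v} [Field k] [CharZero k] [Field K] [Algebra k K] {q : ℕ}
    (ℓ : Fin q → Fin 3 → k) (hc : ¬ OnConic ℓ) :
    ∃ f : Fin 6 → Fin q, Function.Injective f ∧ NC6 fun i j => algebraMap k K (ℓ (f i) j) := by
  classical
  have hspan : Submodule.span k (Set.range fun i => ver (ℓ i)) = ⊤ := by
    by_contra hne
    obtain ⟨φ, hφ, hφ2⟩ := Submodule.exists_le_ker_of_lt_top _ (lt_top_iff_ne_top.2 hne)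
    apply hc
    set p : Fin 6 → k := fun m => φ (Pi.single m 1) with hp
    have hφv : ∀ w : Fin 6 → k, φ w = ∑ m, w m * p m := by
      intro w
      have h1 : w = ∑ m, w m • (Pi.single m (1 : k) : Fin 6 → k) := by
        funext t
        simp [Finset.sum_apply, Pi.single_apply]
      conv_lhs => rw [h1]
      rw [map_sum]
      exact Finset.sum_congr rfl fun m _ => by rw [map_smul, smul_eq_mul]
    have hp0 : p ≠ 0 := by
      intro h0
      apply hφ
      ext m
      have := congrFun h0 m
      simpa [hp] using this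
    have h2 : (2 : k) ≠ 0 := two_ne_zero
    refine ⟨Matrix.of ![![p 0, p 5 / 2, p 4 / 2], ![p 5 / 2, p 1, p 3 / 2], ![p 4 / 2, p 3 / 2, p 2]], ?_, ?_, ?_⟩
    · ext i j
      fin_cases i <;> fin_cases j <;> rfl
    · intro h0
      apply hp0
      have e : ∀ i j, (Matrix.of ![![p 0, p 5 / 2, p 4 / 2], ![p 5 / 2, p 1, p 3 / 2], ![p 4 / 2, p 3 / 2, p 2]] :
          Matrix (Fin 3) (Fin 3) k) i j = 0 := fun i j => by rw [h0]; rfl
      have e0 : p 0 = 0 := e 0 0
      have e1 : p 1 = 0 := e 1 1
      have e2 : p 2 = 0 := e 2 2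
      have e3 : p 3 / 2 = 0 := e 1 2
      have e4 : p 4 / 2 = 0 := e 0 2
      have e5 : p 5 / 2 = 0 := e 0 1
      rw [div_eq_zero_iff] at e3 e4 e5
      have e3' := e3.resolve_right h2
      have e4' := e4.resolve_right h2
      have e5' := e5.resolve_right h2
      funext m
      fin_cases m
      exacts [e0, e1, e2, e3', e4', e5']
    · intro i
      have h3 : φ (ver (ℓ i)) = 0 := hφ2 (Submodule.subset_span ⟨i, rfl⟩)
      rw [hφv, Fin.sum_univ_six] at h3
      simp only [ver, Matrix.cons_val] at h3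
      rw [Fin.sum_univ_three, Fin.sum_univ_three, Fin.sum_univ_three, Fin.sum_univ_three]
      simp only [Matrix.of_apply, Matrix.cons_val]
      rw [← h3]
      field_simp
      ring
  obtain ⟨κ, a, ha, hsp, hli⟩ := exists_linearIndependent' k fun i => ver (ℓ i)
  rw [hspan] at hsp
  let B : Module.Basis κ k (Fin 6 → k) := Module.Basis.mk hli hsp.ge
  have hfin : Finite κ := Module.Finite.finite_basis B
  have hft : Fintype κ := Fintype.ofFinite κ
  have hcard : Fintype.card κ = 6 := by
    rw [← Module.finrank_eq_card_basis B, Module.finrank_fin_fun]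
  let e : Fin 6 ≃ κ := (Fintype.equivFinOfCardEq hcard).symm
  refine ⟨a ∘ e, ha.comp e.injective, fun r hr => ?_⟩
  set W : Matrix (Fin 6) (Fin 6) k := Matrix.of fun i m => ver (ℓ (a (e i))) m with hW
  have hli' : LinearIndependent k fun i => W i := (linearIndependent_equiv e).2 hli
  have hunit : IsUnit W := Matrix.linearIndependent_rows_iff_isUnit.1 hli'
  have hdet : (W.map (algebraMap k K)).det ≠ 0 := by
    rw [← RingHom.mapMatrix_apply, ← RingHom.map_det, Ne, map_eq_zero]
    exact ((Matrix.isUnit_iff_isUnit_det _).1 hunit).ne_zero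
  have h4 : (W.map (algebraMap k K)).mulVec r = 0 := by
    funext i
    have h5 := hr i
    rw [val_eq_ver] at h5
    rw [Pi.zero_apply, ← h5]
    show ∑ m, algebraMap k K (ver (ℓ (a (e i))) m) * r m = _
    refine Finset.sum_congr rfl fun m _ => ?_
    congr 1
    fin_cases m <;> simp [ver]
  exact Matrix.eq_zero_of_mulVec_eq_zero hdet h4

/-! ## lines -/

theorem det_of {k : Type u} [Field k] (a b c : Fin 3 → k) : (Matrix.of ![a, b, c]).det = det3 a b c := by
  rw [Matrix.det_fin_three]
  simp only [Matrix.of_apply, Matrix.cons_val, det3]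
  ring

theorem crs_ne_zero {k : Type u} [Field k] (m b : Fin 3 → k) (hm : m ≠ 0) (hb : ∀ c : k, b ≠ c • m) : crs m b ≠ 0 := by
  intro h
  obtain ⟨s, hs⟩ := Function.ne_iff.1 hm
  rw [Pi.zero_apply] at hs
  have h0 : m 1 * b 2 - m 2 * b 1 = 0 := congrFun h 0
  have h1 : m 2 * b 0 - m 0 * b 2 = 0 := congrFun h 1
  have h2 : m 0 * b 1 - m 1 * b 0 = 0 := congrFun h 2
  apply hb (b s / m s)
  funext t
  rw [Pi.smul_apply, smul_eq_mul, div_mul_eq_mul_div, eq_div_iff hs]
  fin_cases s <;> fin_cases t <;> simp only [Fin.zero_eta, Fin.mk_one, Fin.reduceFinMk]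
  · linear_combination h2
  · linear_combination -h1
  · linear_combination -h2
  · linear_combination h0
  · linear_combination h1
  · linear_combination -h0

theorem det3_trans {k : Type u} [Field k] (m a b c : Fin 3 → k) (hm : m ≠ 0) (hb : ∀ e : k, b ≠ e • m)
    (h1 : det3 m a b = 0) (h2 : det3 m b c = 0) : det3 m a c = 0 := by
  rw [← det_of]
  rw [← Matrix.exists_mulVec_eq_zero_iff]
  refine ⟨crs m b, crs_ne_zero m b hm hb, ?_⟩
  funext i
  fin_cases i
  · show ∑ j, m j * crs m b j = 0
    rw [Fin.sum_univ_three]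
    simp only [crs, Matrix.cons_val]
    ring
  · show ∑ j, a j * crs m b j = 0
    rw [Fin.sum_univ_three]
    simp only [crs, Matrix.cons_val]
    simp only [det3] at h1
    linear_combination -h1
  · show ∑ j, c j * crs m b j = 0
    rw [Fin.sum_univ_three]
    simp only [crs, Matrix.cons_val]
    simp only [det3] at h2
    linear_combination h2

theorem five_of_not_four {k : Type u} [Field k] {q : ℕ} (ℓ : Fin q → Fin 3 → k) (m : Fin 3 → k) (hm : m ≠ 0)
    (hℓ : ∀ i, ∀ e : k, ℓ i ≠ e • m) (h : ¬ Four ℓ m) :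
    ∃ f : Fin 5 → Fin q, ∀ i j, i ≠ j → (Matrix.of ![m, ℓ (f i), ℓ (f j)]).det ≠ 0 := by
  classical
  let s : Setoid (Fin q) := ⟨fun i j => det3 m (ℓ i) (ℓ j) = 0, fun i => by simp only [det3]; ring, fun {i j} h => by
    simp only [det3] at h ⊢
    linear_combination -h, fun {i j l} h1 h2 => det3_trans m _ _ _ hm (hℓ j) h1 h2⟩
  rcases le_or_gt (Fintype.card (Quotient s)) 4 with h4 | h4
  · exfalso
    obtain ⟨e⟩ : Nonempty (Quotient s ↪ Fin 4) := Function.Embedding.nonempty_of_card_le (by simpa using h4)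
    refine h ⟨hm, fun i => e (Quotient.mk s i), fun i j hij => ?_⟩
    rw [det_of]
    exact Quotient.exact (s := s) (e.injective hij)
  · obtain ⟨e⟩ : Nonempty (Fin 5 ↪ Quotient s) := Function.Embedding.nonempty_of_card_le (by
      rw [Fintype.card_fin]
      omega)
    refine ⟨fun i => Quotient.out (e i), fun i j hij h0 => hij (e.injective ?_)⟩
    rw [det_of] at h0
    have h5 := Quotient.sound (s := s) (show s.r (Quotient.out (e i)) (Quotient.out (e j)) from h0)
    rwa [Quotient.out_eq, Quotient.out_eq] at h5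

end Pool.Agent.EXP
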